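import Pool.Agent.H436.SC.Slow
import Pool.Agent.H436.SC.Trans

/-!
# Entire curves given by linear differential equations over slowly growing functions

Kobayashi's conjecture says that a general hypersurface `X` of degree `d ≥ 2 n + 2` in the complex
projective space of dimension `n + 1` is hyperbolic: all entire curves `f : ℂ → X` are constant. We
prove this for the curves which are given by iterated linear differential equations over slowly
growing entire functions, for almost all `X`.

Let `φ` be a growth function with `φ (r) / log r → ∞`. The entire functions `g` of growth `o(φ)`
(that is, `log |g| = o(φ (r))` on the discs of radius `r + c`, for each `c`) form a ring `A_φ`, which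
contains the polynomials and transcendental functions, see (4). Let `E` be any field with a
derivation which contains the differential ring of the entire functions (for instance the
meromorphic functions on the plane or on some domain, or the germs of meromorphic functions at a
point, possibly depending on further parameters; new constants are allowed). The curve `f` is *built*
over a set `A` of entire functions if, for some `E`, it has homogeneous coordinates in the smallest
subset of `E` which contains the field generated by `A` and all the constants of `E`, and is closed
under sums, products and solutions `y` in `E` of linear systems `y' = M y` with coefficients in the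
subset. For instance `exp (g_1)`, `exp (exp (g_1))`, primitives of such functions, the solutions of
`y'' = g_1 y' + g_2 y`, and so on, with `g_i` in `A_φ`; these functions grow arbitrarily fast.

(1) Let `d ≥ 2 n + 2`. There are countably many nonzero polynomials `Φ_N` in the coefficients of the
forms of degree `d` such that for every countable union of closed sets of forms on which no `Φ_N`
vanishes there is one growth function `φ`, `φ (r) / log r → ∞`, such that for all forms `F` in the
union all entire curves in `{F = 0}` which are built over `A_φ` are constant. There is one growth
function `φ` for which this holds for almost all forms `F` of degree `d`.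

(2) A projective algebraic set `X` contains no rational curve if and only if for some growth function
`φ`, `φ (r) / log r → ∞`, all entire curves in `X` which are built over `A_φ` are constant.

(3) (The principle.) Let `A` be a ring of entire functions which contains `z` and the derivatives of
its elements and all entire functions integral over it. If all entire curves in `X` with homogeneous
coordinates in `A` are constant, then all entire curves in `X` which are built over `A` are constant.

The library has the curves of growth `φ` (`SlowEntireCurves`) and the curves built over the
polynomials or the elliptic functions (`VeryGeneralTowers`).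

The proof of (3). By the earlier result of helper436 on points over differential fields
(`MP_e120ef_ag.DifferentialFieldImages`) the ratios of the coordinates of `f` are algebraic over the
field generated by `A` and the constants of `E`, or there is a rational curve in `X`, which is an
entire curve with coordinates in `ℂ[z]`. As these ratios are meromorphic functions on the plane, they
are algebraic over `A` (linear disjointness over the constants), and, since the ring of the entire
functions is integrally closed, ratios of functions in `A`. So `f` has homogeneous coordinates in `A`.
-/

set_option autoImplicit false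

namespace Pool.Agent.Results.MP_b509a1_ag.CurvesOverSlowFunctions

open MvPolynomial MeasureTheory
open Pool.Agent.H436.SC (Ent Built InX Const Closed SmallF HypOver NoRat)
open Pool.Agent.R871.SG (Grows)
open Pool.Agent.N634.SH (Ix form)

/-- `S` is a finite set of forms. -/
def Forms {n : ℕ} (S : Finset (MvPolynomial (Fin (n + 1)) ℂ)) : Prop :=
  ∀ F ∈ S, ∃ e, F.IsHomogeneous e

/-- The zero set of `S` contains no rational curve if and only if, for some growth function `φ`, all
entire curves in it which are built over the functions of growth `o(φ)` are constant. -/
def Criterion {n : ℕ} (S : Finset (MvPolynomial (Fin (n + 1)) ℂ)) : Prop :=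
  NoRat (S : Set (MvPolynomial (Fin (n + 1)) ℂ)) ↔
    ∃ φ : ℝ → ℝ, Grows φ ∧ HypOver φ (S : Set (MvPolynomial (Fin (n + 1)) ℂ))

/-- All curves in the zero set of `S` with the property `P` are constant. -/
def ConstIf {n : ℕ} (S : Finset (MvPolynomial (Fin (n + 1)) ℂ)) (P : (Fin (n + 1) → Ent) → Prop) :
    Prop :=
  ∀ f : Fin (n + 1) → Ent, InX (S : Set (MvPolynomial (Fin (n + 1)) ℂ)) f → P f → Const f

/-- All curves in the zero set of `S` which are built over `A` are constant if and only if all curves
in it with coordinates in `A` are constant. -/
def Principle {n : ℕ} (S : Finset (MvPolynomial (Fin (n + 1)) ℂ)) (A : Subalgebra ℂ Ent) : Prop :=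
  ConstIf S (fun f => ∀ j, f j ∈ A) ↔ ConstIf S (Built (A : Set Ent))

/-- A property `H` of a growth function `φ` and of a vector `c` of coefficients holds uniformly for
almost all `c`: outside of the zeros of countably many nonzero polynomials in `c` there is one growth
function for each countable union of closed sets, and there is one for almost all `c`. -/
def Uniformly {ι : Type} [Fintype ι] (H : (ℝ → ℝ) → (ι → ℂ) → Prop) : Prop :=
  ∃ Φ : ℕ → MvPolynomial ι ℂ, (∀ N, Φ N ≠ 0) ∧
    (∀ K : ℕ → Set (ι → ℂ), (∀ l, IsClosed (K l)) → (∀ l, ∀ c ∈ K l, ∀ N, eval c (Φ N) ≠ 0) →
      ∃ φ : ℝ → ℝ, Grows φ ∧ ∀ l, ∀ c ∈ K l, H φ c) ∧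
    ∃ φ : ℝ → ℝ, Grows φ ∧ ∀ᵐ c : ι → ℂ, H φ c

/-- All entire curves in `{F = 0}` which are built over the functions of growth `o(φ)` are constant,
where `F` is the form of degree `d` in `n + 2` variables with the coefficients `c`. -/
def Hyp (n d : ℕ) (φ : ℝ → ℝ) (c : Ix (n + 1) (fun _ : Fin 1 => d) → ℂ) : Prop :=
  HypOver φ {form c 0}

/-- The functions of growth `o(φ)`. -/
def slow (φ : ℝ → ℝ) : Set Ent := {g : Ent | SmallF φ g.1}

/-- `T` is a closed ring. -/
def ClosedRing (T : Set Ent) : Prop := ∃ A : Subalgebra ℂ Ent, Closed A ∧ (A : Set Ent) = T

/-- `g` is a polynomial. -/
def IsPoly (g : Ent) : Prop := ∃ p : Polynomial ℂ, ∀ z, g.1 z = p.eval z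

theorem result :
    -- (1) general hypersurfaces of degree at least `2 n + 2`
    (∀ n d : ℕ, 2 * n + 2 ≤ d → Uniformly (Hyp n d)) ∧
    -- (2) projective algebraic sets without rational curves
    (∀ (n : ℕ) (S : Finset (MvPolynomial (Fin (n + 1)) ℂ)), Forms S → Criterion S) ∧
    -- (3) the principle
    (∀ (n : ℕ) (S : Finset (MvPolynomial (Fin (n + 1)) ℂ)), Forms S →
      ∀ A : Subalgebra ℂ Ent, Closed A → Principle S A) ∧
    -- (4) the rings of slow functions
    (∀ φ : ℝ → ℝ, Grows φ → ClosedRing (slow φ) ∧ ∃ g ∈ slow φ, ¬ IsPoly g) := by
  refine ⟨fun n d hd => Pool.Agent.H436.SC.general hd,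
    fun n S hS => Pool.Agent.H436.SC.noRat_iff hS, fun n S hS A hA => ⟨fun h f hf hb =>
      Pool.Agent.H436.SC.principle hS hA (fun g hg hgX => h g hgX hg) hf hb, fun h g hgX hg =>
      h g hgX (Pool.Agent.H436.SC.built_self _ hg)⟩, fun φ hφ =>
      ⟨⟨Pool.Agent.H436.SC.small φ hφ, Pool.Agent.H436.SC.small_closed hφ, rfl⟩, ?_⟩⟩
  obtain ⟨g, hg, hs, hp⟩ := Pool.Agent.H436.SC.exists_slow hφ
  exact ⟨⟨g, hg⟩, hs, hp⟩

end Pool.Agent.Results.MP_b509a1_ag.CurvesOverSlowFunctions
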