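import Pool.Agent.H910.Kh.Cls
import Pool.Agent.H910.Kh.Gl
import Pool.Agent.H910.Kh.Iff
import Pool.Agent.H910.Kh.Line

set_option autoImplicit false

/-!
# General hypersurfaces minus a divisor of degree `2 n + 1` with two components are hyperbolic

The points of `ℙ^(n + 1)` are regarded as polynomials `∑ l, v l * x ^ (n + 1 - l)` of degree at most
`n + 1`, up to constant factors. Let `D` be the hypersurface of the polynomials of degree less than
`n + 1` or with a multiple root: the sum of the discriminant hypersurface, of degree `2 n`, and of one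
of its osculating hyperplanes. It has the degree `2 n + 1`.

`result`: let `n ≥ 1`.

1. Let the hypersurface `X` with the equation `F = 0` be transversal to the rational normal curve of
   the polynomials `(x - T) ^ (n + 1)`. The complement of `D` in `X` is Brody hyperbolic - that is,
   every holomorphic map from `ℂ` to `ℙ^(n + 1)` whose image is contained in `X` and does not meet `D`
   is constant - if and only if `X` does not contain a curve
   `{∏ j, (x - (A * c j + β)) : A ∈ ℂ}` with distinct `c j`.
2. This is so if `X` is in general position: the hypersurface `X` does not pass through the constant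
   polynomials, and at each of its points `(x - T) ^ (n + 1)` it is transversal to the lines which
   join this point with the polynomials `(x - T) ^ (n + 1 - k)`, `1 ≤ k ≤ n + 1`. For instance
   `F = x_(n + 1) ^ d - x_0 ^ d` has this property.
3. For every `d ≥ 1` the general hypersurface of degree `d` is in general position (the precise
   meaning of general is that of the frozen statement of the problem). So for every `d ≥ 1`, in
   particular for every `d ≥ 2 n + 2`, the range of the problem, every nonconstant entire curve in a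
   general hypersurface of degree `d` meets `D`.
4. Every reduced hypersurface `F = 0` of degree `d ≥ 1` is in general position after a general linear
   transformation `B`. So for **every** hypersurface `X` of `ℙ^(n + 1)` and a general `B` the
   complement of `B D` in `X` is Brody hyperbolic.

The proof. The roots of a polynomial with entire coefficients and without multiple roots are entire
functions `ρ j`, and `(ρ j - ρ 0) / (ρ 1 - ρ 0)` omits `0` and `1`, so that it is constant by Picard's
theorem. So `ρ j = c j * a + b` with an entire function `a` without zeros, an entire function `b` and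
constants `c j`, and `F = 0` gives an algebraic relation `G (a, b) = 0`. The roots of `G (0, T)`, the
points of the rational normal curve on `F = 0`, are simple, and their number is the total degree of
`G`. The Zariski closure of the image of `(a, b)` is a rational curve on which `a` has only one zero
and only one pole (the theorem of the library for curves of logarithmic general type); since the roots
of `G (0, T)` are simple `a` has a simple zero there, so that `b` is a linear function of `a`. Then
`F = 0` contains the curve of the polynomials `∏ (x - β - A c' j)`, `A` in `ℂ`, which is excluded by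
the general position at the point `(x - β) ^ (n + 1)`.
-/

namespace Pool.Agent.Results.MP_b509a1_ag.OffTheDiscriminant

open MvPolynomial

/-- The polynomial `∑ l, v l * x ^ (n + 1 - l)` with the coefficients `v`. -/
noncomputable def poly {n : ℕ} (v : Fin (n + 2) → ℂ) : Polynomial ℂ :=
  ∑ l : Fin (n + 2), Polynomial.C (v l) * Polynomial.X ^ (n + 1 - (l : ℕ))

/-- The coefficients of a polynomial of degree at most `n + 1`, the leading one first. -/
noncomputable def coefficients {n : ℕ} (p : Polynomial ℂ) : Fin (n + 2) → ℂ :=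
  fun l => p.coeff (n + 1 - (l : ℕ))

/-- The coefficients of the polynomial `(x - T) ^ (n + 1 - k)`, regarded as a polynomial of degree at
most `n + 1`. -/
noncomputable def osc {n : ℕ} (k : ℕ) (T : ℂ) : Fin (n + 2) → ℂ :=
  coefficients ((Polynomial.X - Polynomial.C T) ^ (n + 1 - k))

/-- The hypersurface `F = 0` is transversal to the rational normal curve of the polynomials
`(x - T) ^ (n + 1)`, and it does not contain the point `T = ∞` of this curve. -/
def Transversal {n : ℕ} (F : MvPolynomial (Fin (n + 2)) ℂ) : Prop :=
  eval (Pi.single (Fin.last (n + 1)) 1) F ≠ 0 ∧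
    ∀ T : ℂ, eval (osc 0 T) F = 0 → ∑ i, eval (osc 0 T) (pderiv i F) * osc 1 T i ≠ 0

/-- The hypersurface `F = 0` does not pass through the constant polynomials, and at each of its points
`(x - T) ^ (n + 1)` it is transversal to the lines which join this point with the polynomials
`(x - T) ^ (n + 1 - k)`, `1 ≤ k ≤ n + 1`. -/
def InGeneralPosition {n : ℕ} (F : MvPolynomial (Fin (n + 2)) ℂ) : Prop :=
  eval (Pi.single (Fin.last (n + 1)) 1) F ≠ 0 ∧
    ∀ T : ℂ, eval (osc 0 T) F = 0 → ∀ k : ℕ, 1 ≤ k → k ≤ n + 1 →
      ∑ i, eval (osc 0 T) (pderiv i F) * osc k T i ≠ 0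

/-- There is no nonconstant holomorphic map from the complex plane to the hypersurface `F = 0` whose
image does not meet `D = 0`; the map is given by homogeneous coordinates `f`. -/
def BrodyHyperbolic {n : ℕ} (F D : MvPolynomial (Fin (n + 2)) ℂ) : Prop :=
  ∀ f : ℂ → Fin (n + 2) → ℂ, Differentiable ℂ f →
    (∀ z, f z ≠ 0 ∧ eval (f z) F = 0 ∧ eval (f z) D ≠ 0) → ∀ z, ∃ c : ℂ, f z = c • f 0

/-- The property `P` holds for the general form of degree `d`. -/
def General {n : ℕ} (d : ℕ) (P : MvPolynomial (Fin (n + 2)) ℂ → Prop) : Prop :=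
  ∃ Φ : MvPolynomial (Fin (n + 2) →₀ ℕ) ℂ,
    (∃ F₀ : MvPolynomial (Fin (n + 2)) ℂ, F₀.IsHomogeneous d ∧ eval (fun m => F₀.coeff m) Φ ≠ 0) ∧
    ∀ F : MvPolynomial (Fin (n + 2)) ℂ, F.IsHomogeneous d → eval (fun m => F.coeff m) Φ ≠ 0 → P F

/-- The form `F (B x)`. -/
noncomputable def transform {n : ℕ} (B : Matrix (Fin (n + 2)) (Fin (n + 2)) ℂ)
    (F : MvPolynomial (Fin (n + 2)) ℂ) : MvPolynomial (Fin (n + 2)) ℂ :=
  aeval (fun i => ∑ j, C (B i j) * X j) F

/-- **Hypersurfaces in general position, in particular general hypersurfaces of every degree `d ≥ 1`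
and all reduced hypersurfaces after a general linear transformation, minus the divisor `D` of degree
`2 n + 1`, are Brody hyperbolic.** -/
theorem result (n : ℕ) (hn : 1 ≤ n) :
    ∃ D : MvPolynomial (Fin (n + 2)) ℂ, D.IsHomogeneous (2 * n + 1) ∧
      (∀ v, eval v D ≠ 0 ↔ v 0 ≠ 0 ∧ (poly v).Separable) ∧
      (∀ (d : ℕ) (F : MvPolynomial (Fin (n + 2)) ℂ), F.IsHomogeneous d → Transversal F →
        (BrodyHyperbolic F D ↔ ∀ (β : ℂ) (c : Fin (n + 1) → ℂ), Function.Injective c → ∃ A : ℂ,
          eval (coefficients (∏ j, (Polynomial.X - Polynomial.C (A * c j + β)))) F ≠ 0)) ∧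
      (∀ (d : ℕ) (F : MvPolynomial (Fin (n + 2)) ℂ), F.IsHomogeneous d → InGeneralPosition F →
        BrodyHyperbolic F D) ∧
      (∀ d : ℕ, 1 ≤ d → General d fun F => InGeneralPosition F ∧ BrodyHyperbolic F D) ∧
      ∀ (d : ℕ) (F : MvPolynomial (Fin (n + 2)) ℂ), 1 ≤ d → F.IsHomogeneous d → Squarefree F →
        ∃ Ψ : MvPolynomial (Fin (n + 2) × Fin (n + 2)) ℂ, Ψ ≠ 0 ∧
          ∀ B : Matrix (Fin (n + 2)) (Fin (n + 2)) ℂ, eval (fun p => B p.1 p.2) Ψ ≠ 0 →
            IsUnit B.det ∧ InGeneralPosition (transform B F) ∧
              BrodyHyperbolic (transform B F) D := by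
  have hhyp : ∀ (d : ℕ) (F : MvPolynomial (Fin (n + 2)) ℂ), F.IsHomogeneous d →
      InGeneralPosition F → BrodyHyperbolic F (Pool.Agent.H910.Kh.dd n) := by
    intro d F hF hgood f hf h
    exact Pool.Agent.H910.Kh.hyp_of_good (m := n + 1) (by omega) hF hgood hf (fun z => (h z).2.1)
      fun z => (Pool.Agent.H910.Kh.dd_iff (f z)).1 (h z).2.2
  refine ⟨Pool.Agent.H910.Kh.dd n, Pool.Agent.H910.Kh.dd_hom n,
    fun v => Pool.Agent.H910.Kh.dd_iff v, fun d F hF htr => ?_, hhyp, fun d hd => ?_,
    fun d F hd hF hsq => ?_⟩
  · have h1 := Pool.Agent.H910.Kh.hyp_iff (m := n + 1) (by omega) hF htr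
    refine Iff.trans ?_ h1
    constructor
    · intro h f hf hmem hoff
      refine h f hf fun z => ⟨fun h0 => (hoff z).1 (congrFun h0 0), hmem z, ?_⟩
      exact (Pool.Agent.H910.Kh.dd_iff (f z)).2 (hoff z)
    · intro h f hf h2
      exact h f hf (fun z => (h2 z).2.1) fun z =>
        (Pool.Agent.H910.Kh.dd_iff (f z)).1 (h2 z).2.2
  · obtain ⟨Φ, hΦ, h⟩ := Pool.Agent.H910.Kh.t_gen (n + 1) d (by omega) hd
    exact ⟨Φ, hΦ, fun F hF hne => ⟨h F hF hne, hhyp d F hF (h F hF hne)⟩⟩
  · obtain ⟨Ψ, hΨ, h⟩ := Pool.Agent.H910.Kh.t_gl Pool.Agent.H910.Kh.t_iff Pool.Agent.H910.Kh.t_line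
      (n + 1) d (by omega) hd F hF hsq
    refine ⟨Ψ, hΨ, fun B hB => ?_⟩
    obtain ⟨h1, h2⟩ := h B hB
    refine ⟨h1, h2, hhyp d _ ?_ h2⟩
    have h3 : ∀ i, (∑ j, C (B i j) * X j : MvPolynomial (Fin (n + 2)) ℂ).IsHomogeneous 1 :=
      fun i => IsHomogeneous.sum _ _ _ fun j _ => by
        simpa using (isHomogeneous_C (Fin (n + 2)) (B i j)).mul (isHomogeneous_X ℂ j)
    have h4 := hF.aeval (fun i => ∑ j, C (B i j) * X j) h3
    rwa [one_mul] at h4

end Pool.Agent.Results.MP_b509a1_ag.OffTheDiscriminant
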