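import Pool.Agent.H436.UC.Gen
import Pool.Agent.H436.UC.Exh

/-!
# General hypersurfaces and points over differential fields

Let `X = {F = 0}` be a hypersurface of degree `d` in the complex projective space of dimension
`n + 1`. We consider the points of `X` over an arbitrary field `E` which contains `ℂ` and has
derivations `D_1, …, D_g` over `ℂ`, for instance over a field of meromorphic functions of several
variables. Let `B` be a subfield of `E` which is closed under the `D_i` and contains their joint
constants. The elements of `E` of complexity at most `k` over `B` are defined by induction: the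
elements of `B` have complexity `0`; and sums and products of elements of complexity at most `k`, and
the entries of vectors `y` of size `k + 1` with `D_i y = A_i y`, `i = 1, …, g`, where the entries of
the matrices `A_i` have complexity at most `k`, have complexity at most `k + 1`. The elements of
finite complexity are the elements given by iterated linear differential equations over `B`, see (4).

(1) For all `n`, `d`, `g`, `k` there are a number `M` and a Zariski-OPEN set `U` of forms `F` of
degree `d`, given by polynomials in the coefficients of `F` with RATIONAL coefficients, such that `U`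
is not empty if `d ≥ 2 n + 2` (so it contains the general form), `U` contains all `F` for which
`{F = 0}` contains no rational curve, and for all `F` in `U` and all `E`, `D_i`, `B` as above, all
points of `{F = 0}` over `E` of complexity at most `k` are algebraic over `B` of degree at most `M`.

(2) (Entire curves.) For all `n`, `d`, `k` there is such a set `U` of forms such that for all `F` in
`U` and all rings `A` of entire functions which contain `z` and the derivatives of their elements and
all entire functions integral over `A` (for instance the polynomials, the functions of finite order,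
or the functions of growth `o(φ)`), all entire curves `f : ℂ → {F = 0}` which, in some differential
field `E` containing the entire functions (new constants are allowed), have homogeneous coordinates of
complexity at most `k` over the field generated by `A` and the constants of `E`, have homogeneous
coordinates in `A`.

(3) (Arbitrary projective algebraic sets.) For all `n`, `D`, `g`, `k` there is a number `M` such that
for all sets `S` of forms of degree at most `D` in `n + 1` variables, all forms `G` of degree at most
`D` which are zero on all rational curves of degree at most `M` in `{S = 0}`, and all `E`, `D_i`, `B`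
as above, each point `x` of `{S = 0}` over `E` of complexity at most `k` satisfies `G(x) = 0` or is
algebraic over `B` of degree at most `M`.

The library has (1) for the functions on a domain of the plane and bases `B` generated by the
solutions of autonomous systems of polynomial differential equations of bounded degree
(`GeneralNonlinearBases`). Here the base is arbitrary, `M` and `U` do not depend on it, and there can
be several derivations.

The proof. An ultraproduct of counterexamples is a point over a differential field `E'` of complexity
at most `k` over the ultraproduct `B'` of the bases, which is not algebraic over `B'`. By the earlier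
result of helper436 on points over differential fields (`MP_e120ef_ag.DifferentialFieldImages`) all
points of its locus over `ℂ` lie on rational curves of bounded degree in the limit of the algebraic
sets, and these curves give rational curves of the same degree in almost all of the algebraic sets.
-/

set_option autoImplicit false

namespace Pool.Agent.Results.MP_b509a1_ag.OverDifferentialFields

open MvPolynomial
open Pool.Agent.H436.DT (DField IterL)
open Pool.Agent.H436.SC (Ent InX Closed)
open Pool.Agent.H436.UC (Cx AlgLe BuiltLe Over)
open Pool.Agent.Q171.RC (NoRationalCurve)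
open Pool.Agent.Q1.SL (NonC)

/-- The polynomial `P` is not zero at the coefficients of `F`. -/
def NonzeroAt {n : ℕ} (P : MvPolynomial (Fin (n + 2) →₀ ℕ) ℚ) (F : MvPolynomial (Fin (n + 2)) ℂ) :
    Prop := aeval (fun m => F.coeff m) P ≠ 0

/-- The property `Q` holds for all forms `F` in some Zariski-open set of forms of degree `d`, given by
polynomials in the coefficients of `F` with rational coefficients, which is not empty if
`d ≥ 2 n + 2` and contains all `F` for which `{F = 0}` contains no rational curve. -/
def OnOpen (n d : ℕ) (Q : MvPolynomial (Fin (n + 2)) ℂ → Prop) : Prop :=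
  ∃ Ps : Set (MvPolynomial (Fin (n + 2) →₀ ℕ) ℚ),
    (2 * n + 2 ≤ d → ∃ P ∈ Ps, ∃ F₀ : MvPolynomial (Fin (n + 2)) ℂ, F₀.IsHomogeneous d ∧
      NonzeroAt P F₀) ∧
    (∀ F : MvPolynomial (Fin (n + 2)) ℂ, F.IsHomogeneous d → NoRationalCurve F →
      ∃ P ∈ Ps, NonzeroAt P F) ∧
    ∀ F : MvPolynomial (Fin (n + 2)) ℂ, F.IsHomogeneous d → (∃ P ∈ Ps, NonzeroAt P F) → Q F

/-- All points of `{S = 0}`, `G ≠ 0`, of complexity at most `k` over a subfield `B` of a field `E`
with `g` derivations are algebraic over `B` of degree at most `M`. -/
def AlgPoints {N : ℕ} (g k M : ℕ) (S : Set (MvPolynomial (Fin N) ℂ))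
    (G : MvPolynomial (Fin N) ℂ) : Prop :=
  ∀ (E : Type) [Field E] [Algebra ℂ E] (D : Fin g → Derivation ℂ E E)
    (B : IntermediateField ℂ E), DField D B →
    ∀ x : Fin N → E, (∀ j, x j ∈ Cx D (B : Set E) k) → (∀ F ∈ S, aeval x F = 0) →
      aeval x G ≠ 0 → ∀ u v, AlgLe (B : Set E) M (x u / x v)

/-- `F` is a form of degree at most `D`. -/
def FormLe {N : ℕ} (D : ℕ) (F : MvPolynomial (Fin N) ℂ) : Prop := ∃ e, e ≤ D ∧ F.IsHomogeneous e

/-- The form `G` is zero on all rational curves of degree at most `M` in `{S = 0}`. -/
def ZeroOnCurves {N : ℕ} (M : ℕ) (S : Set (MvPolynomial (Fin N) ℂ))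
    (G : MvPolynomial (Fin N) ℂ) : Prop :=
  ∀ p : Fin N → Polynomial ℂ, (∀ j, (p j).natDegree ≤ M) → (∀ F ∈ S, aeval p F = 0) →
    NonC p → aeval p G = 0

/-- All entire curves in `{F = 0}` of complexity at most `k` over a closed ring `A` have homogeneous
coordinates in `A`. -/
def CurvesOver {N : ℕ} (k : ℕ) (F : MvPolynomial (Fin (N + 1)) ℂ) : Prop :=
  ∀ A : Subalgebra ℂ Ent, Closed A → ∀ f : Fin (N + 1) → Ent, InX {F} f →
    BuiltLe k (A : Set Ent) f → Over (A : Set Ent) f

theorem result :
    -- (1) general hypersurfaces, points over differential fields
    (∀ n d g k : ℕ, ∃ M : ℕ, OnOpen n d fun F => AlgPoints g k M {F} 1) ∧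
    -- (2) general hypersurfaces, entire curves
    (∀ n d k : ℕ, OnOpen n d fun F => CurvesOver k F) ∧
    -- (3) arbitrary projective algebraic sets
    (∀ n D g k : ℕ, ∃ M : ℕ, ∀ (S : Set (MvPolynomial (Fin (n + 1)) ℂ))
      (G : MvPolynomial (Fin (n + 1)) ℂ), (∀ F ∈ S, FormLe D F) → FormLe D G →
        ZeroOnCurves M S G → AlgPoints g k M S G) ∧
    -- (4) the elements of finite complexity
    (∀ (E : Type) [Field E] [Algebra ℂ E] (g : ℕ) (D : Fin g → Derivation ℂ E E)
      (B : IntermediateField ℂ E) (x : E), IterL D B x ↔ ∃ k, x ∈ Cx D (B : Set E) k) := by
  refine ⟨fun n d g k => ?_, fun n d k => ?_, fun n D g k => ?_,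
    fun _ _ _ _ _ _ _ => Pool.Agent.H436.UC.iterL_iff⟩
  · obtain ⟨M, Ps, h1, h2, h3⟩ := Pool.Agent.H436.UC.general n d g k
    exact ⟨M, Ps, h1, h2, fun F hF hP E _ _ D B hB x hx hxF _ =>
      h3 F hF hP E D B hB x hx (hxF F rfl)⟩
  · obtain ⟨Ps, h1, h2, h3⟩ := Pool.Agent.H436.UC.general_curves n d k
    exact ⟨Ps, h1, h2, h3⟩
  · obtain ⟨M, hM⟩ := Pool.Agent.H436.UC.uniform n D g k
    exact ⟨M, fun S G hS hG hc E _ _ δ B hB x hx hxF hxG =>
      (hM S G hS hG hc E δ B hB x hx hxF).resolve_left hxG⟩

end Pool.Agent.Results.MP_b509a1_ag.OverDifferentialFields
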